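import Pool.Agent.Lib.lead.CXGraphRed

namespace Pool.Agent.Results.MP_f82fc2_lc.Hard
open Pool.Agent.Lib.CX Finset

section defs
variable {W : Type} [Fintype W] [DecidableEq W]

def IsMatch (G : SimpleGraph W) (M : Finset (Sym2 W)) : Prop :=
  (∀ e ∈ M, e ∈ G.edgeSet) ∧ ∀ e ∈ M, ∀ e' ∈ M, ∀ v, v ∈ e → v ∈ e' → e = e'

def IsFrac (G : SimpleGraph W) (x : Sym2 W → ℝ) : Prop :=
  (∀ e, 0 ≤ x e) ∧ (∀ e, e ∉ G.edgeSet → x e = 0) ∧ ∀ v, ∑ e with v ∈ e, x e ≤ 1

/-- the matching number equals the fractional matching number -/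
def Stable (G : SimpleGraph W) : Prop := ∃ M, IsMatch G M ∧ ∀ x, IsFrac G x → ∑ e, x e ≤ M.card

/-- the graph with all edges at vertices of `S` removed -/
def del (G : SimpleGraph W) (S : Finset W) : SimpleGraph W where
  Adj u v := G.Adj u v ∧ u ∉ S ∧ v ∉ S
  symm := ⟨fun _ _ h => ⟨h.1.symm, h.2.2, h.2.1⟩⟩
  loopless := ⟨fun _ h => h.1.ne rfl⟩
end defs

def cost (I : Gr × List ℕ) (S : Finset (Fin I.1.n)) : ℕ := ∑ v ∈ S, I.2.getD v 0

/-- a polynomial-time `α`-approximation of minimum-cost vertex deletion on instances with two cost values -/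
def VDApprox (α : ℝ) : Prop := ∃ f : Gr × List ℕ → List ℕ, PT f ∧ ∀ I : Gr × List ℕ,
  (∃ p q, ∀ v : Fin I.1.n, I.2.getD v 0 = p ∨ I.2.getD v 0 = q) →
    Stable (del I.1.G {v | v.1 ∈ f I}) ∧ ∀ S, Stable (del I.1.G S) → (cost I {v | v.1 ∈ f I} : ℝ) ≤ α * cost I S

def Hits (F : List (List ℕ)) (H : List ℕ) : Prop := ∀ s ∈ F, ∃ x ∈ s, x ∈ H

/-- a polynomial-time `β`-approximation of minimum hitting set -/
def HSApprox (β : ℝ) : Prop := ∃ h : List (List ℕ) → List ℕ, PT h ∧ ∀ F : List (List ℕ), (∀ s ∈ F, s ≠ []) →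
  Hits F (h F) ∧ ∀ H, Hits F H → ((h F).toFinset.card : ℝ) ≤ β * H.toFinset.card

section gen
variable {W : Type} [Fintype W] [DecidableEq W] {G : SimpleGraph W}

theorem ke (D : Finset W) (p : W → W) (hc : ∀ u v, G.Adj u v → u ∈ D ∨ v ∈ D) (h1 : ∀ v ∈ D, G.Adj v (p v))
    (h2 : ∀ v ∈ D, p v ∉ D) (h3 : ∀ u ∈ D, ∀ v ∈ D, p u = p v → u = v) : Stable G := by
  have key : ∀ u ∈ D, ∀ v ∈ D, ∀ w, w ∈ s(u, p u) → w ∈ s(v, p v) → u = v := fun u hu v hv w a b => by
    simp only [Sym2.mem_iff] at a b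
    rcases a with rfl | rfl <;> rcases b with b | b
    exacts [b, (h2 v hv (b ▸ hu)).elim, (h2 u hu (b ▸ hv)).elim, h3 u hu v hv b]
  refine ⟨D.image fun v => s(v, p v), ⟨?_, ?_⟩, fun x ⟨a, b, c⟩ => ?_⟩
  · simp only [forall_mem_image]; exact h1
  · simp only [forall_mem_image]; exact fun u hu v hv w a b => by rw [key u hu v hv w a b]
  · rw [card_image_of_injOn fun u hu v hv h => key u hu v hv u (Sym2.mem_mk_left _ _) (by
      have h : s(u, p u) = s(v, p v) := h
      rw [← h]; simp)]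
    calc ∑ e, x e ≤ ∑ e, ∑ v ∈ D with v ∈ e, x e := sum_le_sum fun e _ => by
          by_cases he : e ∈ G.edgeSet
          · have : (D.filter (· ∈ e)).Nonempty := by
              induction e using Sym2.ind with
              | _ u v => exact (hc u v he).elim (fun h => ⟨u, by simp [h]⟩) fun h => ⟨v, by simp [h]⟩
            rw [sum_const, nsmul_eq_mul]
            exact le_mul_of_one_le_left (a e) (by exact_mod_cast this.card_pos)
          · simp [b e he]
      _ = ∑ v ∈ D, ∑ e with v ∈ e, x e := sum_comm' (by simp [and_comm])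
      _ ≤ ∑ v ∈ D, 1 := sum_le_sum fun v _ => c v
      _ = _ := by simp

theorem tri {a b c : W} (ab : G.Adj a b) (bc : G.Adj b c) (ac : G.Adj a c) {M : Finset (Sym2 W)} (hM : IsMatch G M)
    (h : ∀ e ∈ M, a ∉ e ∧ b ∉ e ∧ c ∉ e) : ∃ x, IsFrac G x ∧ ∑ e, x e = M.card + 3 / 2 := by
  let T : Finset (Sym2 W) := {s(a, b), s(b, c), s(a, c)}
  have n1 := ab.ne
  have n2 := bc.ne
  have n3 := ac.ne
  have hT : T.card = 3 := card_eq_three.2 ⟨_, _, _, by simp [n1, n3, n3.symm], by simp [n1, n2, n3], by simp [n1, n2, n1.symm], rfl⟩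
  refine ⟨fun e => (if e ∈ M then 1 else 0) + if e ∈ T then 1 / 2 else 0, ⟨fun e => by positivity, fun e he => ?_, fun v => ?_⟩, ?_⟩
  · have h1 : e ∉ M := fun h => he (hM.1 e h)
    have h2 : e ∉ T := by
      simp only [T, mem_insert, mem_singleton]; rintro (rfl | rfl | rfl); exacts [he ab, he bc, he ac]
    simp [h1, h2]
  · rw [sum_add_distrib, ← sum_filter, ← sum_filter, sum_const, sum_const, nsmul_eq_mul, nsmul_eq_mul]
    by_cases hv : v = a ∨ v = b ∨ v = c
    · have e1 : ((univ.filter fun e : Sym2 W => v ∈ e).filter (· ∈ M)).card = 0 := by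
        rw [card_eq_zero, filter_eq_empty_iff]
        intro e he hm
        have := h e hm
        rw [mem_filter] at he
        rcases hv with rfl | rfl | rfl <;> tauto
      have e2 : ((univ.filter fun e : Sym2 W => v ∈ e).filter (· ∈ T)).card < 3 := by
        rw [← hT]
        refine card_lt_card ⟨fun e he => (mem_filter.1 he).2, fun hh => ?_⟩
        have k : ∀ e ∈ T, v ∈ e := fun e he => (mem_filter.1 (mem_filter.1 (hh he)).1).2
        have k1 := k s(a, b) (by simp [T])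
        have k2 := k s(b, c) (by simp [T])
        have k3 := k s(a, c) (by simp [T])
        simp only [Sym2.mem_iff] at k1 k2 k3
        grind
      have e3 : (((univ.filter fun e : Sym2 W => v ∈ e).filter (· ∈ T)).card : ℝ) ≤ 2 := by exact_mod_cast Nat.le_of_lt_succ e2
      rw [e1]; push_cast; linarith
    · have e1 : ((univ.filter fun e : Sym2 W => v ∈ e).filter (· ∈ T)).card = 0 := by
        rw [card_eq_zero, filter_eq_empty_iff]
        intro e he hm
        rw [mem_filter] at he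
        simp only [T, mem_insert, mem_singleton] at hm
        rcases hm with rfl | rfl | rfl <;> simp at he <;> tauto
      have e2 : ((univ.filter fun e : Sym2 W => v ∈ e).filter (· ∈ M)).card ≤ 1 := card_le_one.2 fun e he e' he' => by
        simp only [mem_filter] at he he'
        exact hM.2 e he.2 e' he'.2 v he.1.2 he'.1.2
      have e3 : (((univ.filter fun e : Sym2 W => v ∈ e).filter (· ∈ M)).card : ℝ) ≤ 1 := by exact_mod_cast e2
      rw [e1]; push_cast; linarith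
  · rw [sum_add_distrib, ← sum_filter, ← sum_filter]; simp [hT]; norm_num

theorem ns {a b c : W} (ab : G.Adj a b) (bc : G.Adj b c) (ac : G.Adj a c) (hb : ∀ w, G.Adj b w → w = a ∨ w = c)
    (hc : ∀ w, G.Adj c w → w = a ∨ w = b) (ha : ∀ w, G.Adj a w → w = b ∨ w = c ∨ ∃ Z N : Finset W,
      (∀ z ∈ Z, G.Adj w z ∧ z ≠ a ∧ ∀ y, G.Adj z y → y ∈ N) ∧ w ∈ N ∧ N.card ≤ Z.card) : ¬Stable G := by
  rintro ⟨M, hM, h⟩
  let M1 := M.filter fun e => a ∉ e ∧ b ∉ e ∧ c ∉ e
  have m1 : IsMatch G M1 := ⟨fun e he => hM.1 e (mem_filter.1 he).1,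
    fun e he e' he' => hM.2 e (mem_filter.1 he).1 e' (mem_filter.1 he').1⟩
  suffices ∃ M', IsMatch G M' ∧ (∀ e ∈ M', a ∉ e ∧ b ∉ e ∧ c ∉ e) ∧ M.card ≤ M'.card + 1 by
    obtain ⟨M', h1, h2, h3⟩ := this
    obtain ⟨x, x1, x2⟩ := tri ab bc ac h1 h2
    have := h x x1
    have : (M.card : ℝ) ≤ M'.card + 1 := by exact_mod_cast h3
    linarith
  have cl : ∀ e ∈ M, e ∈ M1 ∨ a ∈ e ∨ e = s(b, c) := fun e he => by
    by_cases h1 : a ∈ e
    · exact Or.inr (Or.inl h1)
    by_cases h2 : b ∈ e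
    · obtain ⟨w, rfl⟩ := Sym2.mem_iff_exists.1 h2
      rcases hb w (hM.1 _ he) with rfl | rfl
      exacts [(h1 (by simp)).elim, Or.inr (Or.inr rfl)]
    by_cases h3 : c ∈ e
    · obtain ⟨w, rfl⟩ := Sym2.mem_iff_exists.1 h3
      rcases hc w (hM.1 _ he) with rfl | rfl
      exacts [(h1 (by simp)).elim, (h2 (by simp)).elim]
    exact Or.inl (mem_filter.2 ⟨he, h1, h2, h3⟩)
  have one : ∀ e0, (∀ e ∈ M, e ∈ M1 ∨ e = e0) → M.card ≤ M1.card + 1 := fun e0 h =>
    (card_le_card fun e he => mem_insert.2 (h e he).symm).trans (card_insert_le _ _)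
  by_cases h1 : ∃ e ∈ M, a ∈ e
  swap
  · exact ⟨M1, m1, fun e he => (mem_filter.1 he).2, one _ fun e he => (cl e he).imp_right fun h =>
      h.resolve_left fun h => h1 ⟨e, he, h⟩⟩
  obtain ⟨e0, h1, h2⟩ := h1
  by_cases h3 : s(b, c) ∈ M
  swap
  · refine ⟨M1, m1, fun e he => (mem_filter.1 he).2, one e0 fun e he => (cl e he).imp_right ?_⟩
    rintro (h | rfl)
    exacts [hM.2 _ he _ h1 a h h2, (h3 he).elim]
  obtain ⟨w, rfl⟩ := Sym2.mem_iff_exists.1 h2
  have nb : ∀ y, y ∈ s(b, c) → y ∉ s(a, w) := fun y hy hy' => by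
    have := hM.2 _ h3 _ h1 y hy hy'
    have : a ∈ s(b, c) := this ▸ h2
    simp [ab.ne, ac.ne] at this
  obtain ⟨Z, N, z1, z2, z3⟩ := ((ha w (hM.1 _ h1)).resolve_left fun h => nb b (by simp) (by simp [h])).resolve_left
    fun h => nb c (by simp) (by simp [h])
  obtain ⟨z, hz, hf⟩ : ∃ z ∈ Z, ∀ e ∈ M, z ∉ e := by
    by_contra hh
    push Not at hh
    have : ∀ z ∈ Z, ∃ y, s(z, y) ∈ M := fun z hz => by
      obtain ⟨e, he, h⟩ := hh z hz
      obtain ⟨y, rfl⟩ := Sym2.mem_iff_exists.1 h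
      exact ⟨y, he⟩
    choose! q hq using this
    have := card_le_card_of_injOn (s := Z) (t := N.erase w) q (fun z hz => mem_coe.2 (mem_erase.2 ⟨fun h => by
      have := hM.2 _ (hq z hz) _ h1 w (by simp [h]) (by simp)
      have : z ∈ s(a, w) := this ▸ Sym2.mem_mk_left _ _
      simp [(z1 z hz).2.1, (z1 z hz).1.ne'] at this, (z1 z hz).2.2 _ (hM.1 _ (hq z hz))⟩)) fun z hz z' hz' h => by
        have := hM.2 _ (hq z hz) _ (hq z' hz') (q z) (by simp) (by simp [h])
        rw [h] at this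
        exact Sym2.congr_left.1 this
    have := card_erase_add_one z2
    omega
  have fw : ∀ e ∈ M1, ∀ v, v ∈ s(w, z) → v ∉ e := fun e he v hv h => by
    rw [mem_filter] at he
    rcases Sym2.mem_iff.1 hv with rfl | rfl
    · exact he.2.1 (hM.2 _ h1 _ he.1 v (by simp) h ▸ h2)
    · exact hf e he.1 h
  refine ⟨insert s(w, z) M1, ⟨?_, ?_⟩, ?_, ?_⟩
  · simpa using ⟨(z1 z hz).1, m1.1⟩
  · simp only [forall_mem_insert]
    exact ⟨⟨fun _ _ _ => trivial, fun e he v a b => (fw e he v a b).elim⟩,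
      fun e he => ⟨fun v a b => (fw e he v b a).elim, m1.2 e he⟩⟩
  · simp only [forall_mem_insert]
    refine ⟨?_, fun e he => (mem_filter.1 he).2⟩
    have k1 := hf _ h1
    have k2 := hf _ h3
    have k3 := nb w
    have k4 := (show G.Adj a w from hM.1 _ h1).ne
    simp only [Sym2.mem_iff] at k1 k2 k3 ⊢
    grind
  · rw [card_insert_of_notMem fun h => fw _ h w (by simp) (by simp)]
    refine (card_le_card (t := insert s(a, w) (insert s(b, c) M1)) fun e he => ?_).trans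
      ((card_insert_le _ _).trans (Nat.succ_le_succ (card_insert_le _ _)))
    rcases cl e he with h | h | h
    · simp [h]
    · simp [hM.2 _ he _ h1 a h h2]
    · simp [h]
end gen

abbrev Nm := ℕ × ℕ × ℕ
def vs (F : List (List ℕ)) : List Nm :=
  ((List.range F.length).flatMap fun j => [(0, j, 0), (0, j, 1), (0, j, 2)] ++ (F.getD j []).map fun x => (1, j, x)) ++
    F.flatten.flatMap fun x => (List.range (2 * F.length)).map fun k => (2, x, k)
def Rl (a b : Nm) : Prop := (a.1 = 0 ∧ b.1 = 0 ∧ a.2.1 = b.2.1) ∨ (a.1 = 0 ∧ a.2.2 = 0 ∧ b.1 = 1 ∧ a.2.1 = b.2.1) ∨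
  (a.1 = 1 ∧ b.1 = 2 ∧ a.2.2 = b.2.1)
instance (a b : Nm) : Decidable (Rl a b) := by unfold Rl; infer_instance
def es (F : List (List ℕ)) : List (Nm × Nm) := (vs F ×ˢ vs F).filter fun p => decide (Rl p.1 p.2)
def cst (F : List (List ℕ)) (a : Nm) : ℕ := if a.1 = 2 then 1 else F.length * F.flatten.length
def inst (F : List (List ℕ)) : Gr × List ℕ := (mkGr (vs F) (es F), (vs F).dedup.map (cst F))
def outp (p : List (List ℕ) × List ℕ) : List ℕ := p.1.flatten.filter fun x =>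
  (vs p.1).any (fun a => decide (a.1 ≠ 2 ∧ (vs p.1).dedup.idxOf a ∈ p.2)) ||
    decide (p.1.length < ((List.range (2 * p.1.length)).filter fun k => decide ((vs p.1).dedup.idxOf (2, x, k) ∈ p.2)).length)

theorem mem_vs (F : List (List ℕ)) (a : Nm) : a ∈ vs F ↔ (a.1 = 0 ∧ a.2.1 < F.length ∧ a.2.2 < 3) ∨
    (a.1 = 1 ∧ a.2.1 < F.length ∧ a.2.2 ∈ F.getD a.2.1 []) ∨ (a.1 = 2 ∧ a.2.1 ∈ F.flatten ∧ a.2.2 < 2 * F.length) := by
  obtain ⟨t, j, x⟩ := a
  simp only [vs, List.mem_append, List.mem_flatMap, List.mem_range, List.mem_map, List.mem_cons, Prod.mk.injEq,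
    List.not_mem_nil, or_false]
  grind

section red
variable {W : Type} [Fintype W] [DecidableEq W] {G : SimpleGraph W} {F : List (List ℕ)} {ν : W → Nm}

theorem lemA (hi : Function.Injective ν) (hs : ∀ a, a ∈ vs F ↔ ∃ w, ν w = a)
    (ha : ∀ u v, G.Adj u v ↔ ν u ≠ ν v ∧ (Rl (ν u) (ν v) ∨ Rl (ν v) (ν u))) {H : List ℕ} (hH : Hits F H) :
    Stable (del G {w | (ν w).1 = 2 ∧ (ν w).2.1 ∈ H}) := by
  have : ∀ j < F.length, ∃ x ∈ F.getD j [], x ∈ H := fun j hj => by
    rw [List.getD_eq_getElem _ _ hj]; exact hH _ (List.getElem_mem _)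
  choose! h h1 h2 using this
  have fl : ∀ j < F.length, ∀ x ∈ F.getD j [], x ∈ F.flatten := fun j hj x hx => by
    rw [List.getD_eq_getElem _ _ hj] at hx; exact List.mem_flatten.2 ⟨_, List.getElem_mem _, hx⟩
  let q : Nm → Nm := fun a => if a.1 = 0 then (if a.2.2 = 0 then (1, a.2.1, h a.2.1) else (0, a.2.1, 2)) else (2, a.2.2, a.2.1)
  have mv := fun w => (mem_vs F (ν w)).1 ((hs _).2 ⟨w, rfl⟩)
  have : ∀ w, ∃ w', (ν w).1 ≠ 2 → ν w' = q (ν w) := fun w => by
    by_cases h : (ν w).1 = 2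
    · exact ⟨w, fun h' => (h' h).elim⟩
    obtain ⟨w', e⟩ := (hs (q (ν w))).1 (by have := mv w; rw [mem_vs]; grind)
    exact ⟨w', fun _ => e⟩
  choose p hp using this
  refine ke {w | ((ν w).1 = 0 ∧ (ν w).2.2 < 2) ∨ ((ν w).1 = 1 ∧ (ν w).2.2 ∉ H)} p (fun u v h => ?_) (fun v h => ?_)
    (fun v h => ?_) fun u hu v hv h => hi ?_
  · have k1 := mv u
    have k2 := mv v
    simp only [del, ha, mem_filter, mem_univ, true_and, Rl, Prod.ext_iff, ne_eq] at h ⊢
    clear * - h k1 k2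
    grind (splits := 30)
  · simp only [del, ha, mem_filter, mem_univ, true_and] at h ⊢
    rw [hp v (by omega)]
    generalize ν v = a at h ⊢
    obtain ⟨t, j, x⟩ := a
    rcases h with ⟨rfl, h⟩ | ⟨rfl, h⟩
    · by_cases hx : x = 0
      · simp [q, hx, Rl]
      · simp [q, hx, Rl]; simp at h; omega
    · simpa [q, Rl] using h
  · simp only [mem_filter, mem_univ, true_and] at h ⊢
    rw [hp v (by omega)]
    have k := mv v
    generalize ν v = a at h k ⊢
    obtain ⟨t, j, x⟩ := a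
    rcases h with ⟨rfl, h⟩ | ⟨rfl, h⟩
    · by_cases hx : x = 0
      · simp at k; simp [q, hx, h2 j k.1]
      · simp [q, hx]
    · simp [q]
  · simp only [mem_filter, mem_univ, true_and] at hu hv
    have e := hp u (by omega)
    rw [h, hp v (by omega)] at e
    generalize ν v = a at *
    generalize ν u = b at *
    obtain ⟨t, j, x⟩ := a
    obtain ⟨t', j', x'⟩ := b
    simp only [q] at e hu hv
    clear * - e hu hv
    grind

theorem lemB (hi : Function.Injective ν) (hs : ∀ a, a ∈ vs F ↔ ∃ w, ν w = a)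
    (ha : ∀ u v, G.Adj u v ↔ ν u ≠ ν v ∧ (Rl (ν u) (ν v) ∨ Rl (ν v) (ν u))) {S : Finset W} (hS : ∀ w ∈ S, (ν w).1 = 2)
    (h : Stable (del G S)) {j : ℕ} (hj : j < F.length) :
    ∃ x ∈ F.getD j [], F.length < ((range (2 * F.length)).filter fun k => (2, x, k) ∈ S.image ν).card := by
  by_contra hh
  push Not at hh
  have mv := fun w => (mem_vs F (ν w)).1 ((hs _).2 ⟨w, rfl⟩)
  obtain ⟨a, e0⟩ := (hs (0, j, 0)).1 (by simp [mem_vs, hj])
  obtain ⟨b, e1⟩ := (hs (0, j, 1)).1 (by simp [mem_vs, hj])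
  obtain ⟨c, e2⟩ := (hs (0, j, 2)).1 (by simp [mem_vs, hj])
  have n0 : a ∉ S := fun h => by simpa [e0] using hS a h
  have n1 : b ∉ S := fun h => by simpa [e1] using hS b h
  have n2 : c ∉ S := fun h => by simpa [e2] using hS c h
  refine ns (G := del G S) (a := a) (b := b) (c := c) ⟨by simp [ha, e0, e1, Rl], n0, n1⟩ ⟨by simp [ha, e2, e1, Rl], n1, n2⟩
    ⟨by simp [ha, e0, e2, Rl], n0, n2⟩ (fun w h => ?_) (fun w h => ?_) (fun w h => ?_) h
  · have := mv w
    simp only [del, ha, e1, Rl, ← hi.eq_iff, e0, e2, Prod.ext_iff, ne_eq] at h ⊢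
    clear * - h this
    grind
  · have := mv w
    simp only [del, ha, e1, Rl, ← hi.eq_iff, e0, e2, Prod.ext_iff, ne_eq] at h ⊢
    clear * - h this
    grind
  · by_cases h0 : (ν w).1 = 0
    · have := mv w
      rw [← or_assoc]; left
      simp only [del, ha, e1, Rl, ← hi.eq_iff, e0, e2, Prod.ext_iff, ne_eq] at h ⊢
      clear * - h this h0
      grind
    have h1 : (ν w).1 = 1 ∧ (ν w).2.1 = j ∧ (ν w).2.2 ∈ F.getD j [] := by
      have := mv w
      simp only [del, ha, Rl, e0] at h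
      clear * - h this h0
      grind
    refine Or.inr (Or.inr ⟨univ.filter fun z => z ∉ S ∧ (ν z).1 = 2 ∧ (ν z).2.1 = (ν w).2.2,
      univ.filter fun z => (ν z).1 = 1 ∧ (ν z).2.2 = (ν w).2.2,
      fun z hz => ?_, by simp [h1.1], ?_⟩)
    · simp only [mem_filter, mem_univ, true_and] at hz ⊢
      refine ⟨⟨(ha _ _).2 ⟨fun e => by simp [e, hz] at h1, Or.inl (by simp [Rl, h1, hz])⟩, h.2.2, hz.1⟩,
        fun e => by simp [e, e0] at hz, fun y hy => ?_⟩
      simp only [del, ha, Rl] at hy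
      clear * - hy hz
      grind
    · have k1 : ({z | (ν z).1 = 1 ∧ (ν z).2.2 = (ν w).2.2} : Finset W).card ≤ (range F.length).card :=
        card_le_card_of_injOn (fun z => (ν z).2.1) (fun z hz => by
          have := mv z
          simp only [coe_filter, mem_univ, true_and, Set.mem_ofPred_eq, coe_range, Set.mem_Iio] at hz ⊢
          clear * - hz this
          grind) fun z hz z' hz' e => hi (by
          simp only [coe_filter, mem_univ, true_and, Set.mem_ofPred_eq, Prod.ext_iff] at hz hz' ⊢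
          clear * - hz hz' e
          grind)
      have k2 : ((range (2 * F.length)).filter fun k => ¬(2, (ν w).2.2, k) ∈ S.image ν).card ≤
          ({z | z ∉ S ∧ (ν z).1 = 2 ∧ (ν z).2.1 = (ν w).2.2} : Finset W).card :=
        card_le_card_of_surjOn (fun z => (ν z).2.2) fun k hk => by
          simp only [coe_filter, mem_range, Set.mem_ofPred_eq] at hk
          have := h1.2.2
          rw [List.getD_eq_getElem _ _ hj] at this
          obtain ⟨z, e⟩ := (hs (2, (ν w).2.2, k)).1 (by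
            rw [mem_vs]; exact Or.inr (Or.inr ⟨rfl, List.mem_flatten.2 ⟨_, List.getElem_mem _, this⟩, hk.1⟩))
          exact ⟨z, by simpa [e] using fun h => hk.2 (mem_image.2 ⟨z, h, e⟩), by simp [e]⟩
      have k3 := card_filter_add_card_filter_not (s := range (2 * F.length)) fun k => (2, (ν w).2.2, k) ∈ S.image ν
      have := hh _ h1.2.2
      rw [card_range] at k1 k3
      omega
end red

theorem red (α : ℝ) (hα : 1 ≤ α) : VDApprox α → HSApprox (2 * α) := by
  rintro ⟨f, hf, h⟩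
  have pv : PT vs := by unfold vs; fun_prop
  have pi : PT inst := by unfold inst cst es Rl; fun_prop
  have po : PT outp := by unfold outp; fun_prop
  refine ⟨fun F => outp (F, f (inst F)), po.comp (by fun_prop), fun F hF => ?_⟩
  let ν : Fin (inst F).1.n → Nm := fun i => (mkGrEquiv (vs F) (es F) i).1
  have hi : Function.Injective ν := fun a b h => (mkGrEquiv (vs F) (es F)).injective (Subtype.ext h)
  have hs : ∀ a, a ∈ vs F ↔ ∃ w, ν w = a := fun a =>
    ⟨fun h => ⟨(mkGrEquiv (vs F) (es F)).symm ⟨a, h⟩, by simp [ν]⟩, fun ⟨w, e⟩ => e ▸ (mkGrEquiv (vs F) (es F) w).2⟩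
  have ha : ∀ u v, (inst F).1.G.Adj u v ↔ ν u ≠ ν v ∧ (Rl (ν u) (ν v) ∨ Rl (ν v) (ν u)) := fun u v => by
    have k : ∀ u v, (inst F).1.arc u v ↔ Rl (ν u) (ν v) := fun u v => (mkGr_arc _ _ u v).trans (by
      simp only [es, List.mem_filter, List.mem_product, decide_eq_true_eq]
      exact and_iff_right ⟨(hs _).2 ⟨u, rfl⟩, (hs _).2 ⟨v, rfl⟩⟩)
    rw [Gr.adj_iff, hi.ne_iff, ← k, ← k, Fin.val_ne_iff]; rfl
  have hc : ∀ v, (inst F).2.getD v.1 0 = cst F (ν v) := fun v => by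
    have : v.1 < (vs F).dedup.length := mkGr_n (vs F) (es F) ▸ v.2
    simp only [inst]
    rw [List.getD_eq_getElem _ _ (by simpa using this), List.getElem_map]; rfl
  have hx : ∀ v, (vs F).dedup.idxOf (ν v) = v.1 := fun v =>
    (List.nodup_dedup (vs F)).idxOf_getElem v.1 (mkGr_n (vs F) (es F) ▸ v.2)
  obtain ⟨h1, h2⟩ := h (inst F) ⟨1, _, fun v => by rw [hc, cst]; split_ifs; exacts [Or.inl rfl, Or.inr rfl]⟩
  set S : Finset (Fin (inst F).1.n) := {v | v.1 ∈ f (inst F)} with hS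
  have hd : ∀ a ∈ vs F, (vs F).dedup.idxOf a ∈ f (inst F) ↔ a ∈ S.image ν := fun a h => by
    obtain ⟨w, rfl⟩ := (hs a).1 h
    rw [hx, hi.mem_finset_image]; simp [hS]
  have ho : ∀ x, x ∈ outp (F, f (inst F)) ↔ x ∈ F.flatten ∧ ((∃ w ∈ S, (ν w).1 ≠ 2) ∨
      F.length < ((range (2 * F.length)).filter fun k => (2, x, k) ∈ S.image ν).card) := fun x => by
    simp only [outp, List.mem_filter, Bool.or_eq_true, List.any_eq_true, decide_eq_true_eq]
    refine and_congr_right fun hx' => or_congr ⟨fun ⟨a, a1, a2, a3⟩ => ?_, fun ⟨w, a1, a2⟩ => ?_⟩ ?_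
    · obtain ⟨w, b, rfl⟩ := mem_image.1 ((hd a a1).1 a3); exact ⟨w, b, a2⟩
    · exact ⟨ν w, (hs _).2 ⟨w, rfl⟩, a2, (hd _ ((hs _).2 ⟨w, rfl⟩)).2 (mem_image_of_mem _ a1)⟩
    · rw [← List.toFinset_card_of_nodup (List.nodup_range.filter _), List.toFinset_filter, List.toFinset_range]
      refine iff_of_eq (congrArg (fun s : Finset ℕ => F.length < s.card) (filter_congr fun k hk => ?_))
      rw [decide_eq_true_eq]
      exact hd _ ((mem_vs _ _).2 (Or.inr (Or.inr ⟨rfl, hx', mem_range.1 hk⟩)))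
  have cS : ∀ S, cost (inst F) S = ∑ a ∈ S.image ν, cst F a := fun S => by
    rw [sum_image hi.injOn]; exact sum_congr rfl fun v _ => hc v
  refine ⟨fun s hs' => ?_, fun H hH => ?_⟩
  · by_cases e : ∃ w ∈ S, (ν w).1 ≠ 2
    · obtain ⟨x, hx⟩ := List.exists_mem_of_ne_nil s (hF s hs')
      exact ⟨x, hx, (ho x).2 ⟨List.mem_flatten.2 ⟨s, hs', hx⟩, Or.inl e⟩⟩
    · push Not at e
      obtain ⟨j, hj, rfl⟩ := List.getElem_of_mem hs'
      obtain ⟨x, a, b⟩ := lemB hi hs ha e h1 hj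
      rw [List.getD_eq_getElem _ _ hj] at a
      exact ⟨x, a, (ho x).2 ⟨List.mem_flatten.2 ⟨_, hs', a⟩, Or.inr b⟩⟩
  have u1 : (outp (F, f (inst F))).toFinset.card * F.length ≤ cost (inst F) S := by
    rw [cS]
    by_cases e : ∃ w ∈ S, (ν w).1 ≠ 2
    · obtain ⟨w, a, b⟩ := e
      refine le_trans ?_ (single_le_sum (f := cst F) (fun _ _ => Nat.zero_le _) (mem_image_of_mem ν a))
      rw [cst, if_neg b, mul_comm]
      exact Nat.mul_le_mul_left _ ((List.toFinset_card_le _).trans (List.length_filter_le _ _))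
    · rw [sum_congr rfl (g := fun _ => 1) fun a h => by
        obtain ⟨w, b, rfl⟩ := mem_image.1 h
        exact if_pos (not_not.1 fun h => e ⟨w, b, h⟩), ← card_eq_sum_ones]
      refine le_trans ?_ (card_le_card (filter_subset (fun a => a.2.1 ∈ (outp (F, f (inst F))).toFinset) _))
      rw [card_eq_sum_card_fiberwise (s := (S.image ν).filter _) (f := fun a : Nm => a.2.1)
        (t := (outp (F, f (inst F))).toFinset) fun a h => mem_coe.2 (mem_filter.1 h).2]
      refine card_nsmul_le_sum _ _ _ fun x hx => ?_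
      refine (((ho x).1 (List.mem_toFinset.1 hx)).2.resolve_left e).le.trans
        (card_le_card_of_injOn (fun k => (2, x, k)) (fun k hk => ?_) fun a _ b _ h => by simpa using h)
      simp only [coe_filter, Set.mem_ofPred_eq, mem_filter] at hk ⊢
      exact ⟨⟨hk.2, hx⟩, trivial⟩
  have u2 : cost (inst F) {w | (ν w).1 = 2 ∧ (ν w).2.1 ∈ H} ≤ H.toFinset.card * (2 * F.length) := by
    rw [cost, sum_congr rfl (g := fun _ => 1) fun w h => by rw [hc, cst, if_pos (mem_filter.1 h).2.1], ← card_eq_sum_ones,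
      ← card_range (2 * F.length), ← card_product]
    refine card_le_card_of_injOn (fun w => (ν w).2) (fun w h => ?_) fun a h b h' e => hi (Prod.ext ?_ e)
    · have := (mem_vs F (ν w)).1 ((hs _).2 ⟨w, rfl⟩)
      simp only [coe_filter, Set.mem_ofPred_eq, mem_univ, true_and, coe_product, Set.mem_prod, mem_coe,
        List.mem_toFinset, mem_range] at h ⊢
      exact ⟨h.2, by omega⟩
    · simp only [coe_filter, Set.mem_ofPred_eq] at h h'
      rw [h.2.1, h'.2.1]
  have u3 := h2 _ (lemA hi hs ha hH)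
  rcases Nat.eq_zero_or_pos F.length with e | e
  · obtain rfl := List.length_eq_zero_iff.1 e
    simp only [outp, List.flatten_nil, List.filter_nil, List.toFinset_nil, card_empty, Nat.cast_zero]
    positivity
  have e' : (0 : ℝ) < F.length := by exact_mod_cast e
  have v1 : ((outp (F, f (inst F))).toFinset.card : ℝ) * F.length ≤ cost (inst F) S := by exact_mod_cast u1
  have v2 : (cost (inst F) {w | (ν w).1 = 2 ∧ (ν w).2.1 ∈ H} : ℝ) ≤ H.toFinset.card * (2 * F.length) := by exact_mod_cast u2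
  refine le_of_mul_le_mul_right (v1.trans (u3.trans ?_)) e'
  nlinarith

theorem result : (∀ α : ℝ, 1 ≤ α → VDApprox α → HSApprox (2 * α)) ∧
    ((¬∃ β : ℝ, HSApprox β) → ¬∃ α : ℝ, 1 ≤ α ∧ VDApprox α) :=
  ⟨red, fun hn ⟨α, h1, h2⟩ => hn ⟨_, red α h1 h2⟩⟩

end Pool.Agent.Results.MP_f82fc2_lc.Hard
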